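import Mathlib
import Pool.Agent.H7.Comp.Model

/-!
# Binary encodings of integers and rational numbers
-/

namespace Pool.Agent.H99.BinDet

open Pool.Agent.H7.Comp

/-- Integers are encoded by a sign and the list of the binary digits of the absolute value, least
significant digit first. -/
instance : Enc ℤ := ⟨fun z => .node (enc (decide (z < 0))) (enc (Nat.bits z.natAbs))⟩

/-- Rational numbers are encoded by numerator and denominator (in lowest terms), both in binary. -/
instance : Enc ℚ := ⟨fun q => .node (enc q.num) (enc (Nat.bits q.den))⟩

end Pool.Agent.H99.BinDet
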