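import Mathlib
import Pool.Agent.H7.Comp.Arith

/-!
# Binary natural numbers in polynomial time

Natural numbers in binary (list of binary digits, least significant digit first) and polynomial-time
arithmetic on them, on top of the library `Pool.Agent.H7.Comp`.
-/

namespace Pool.Agent.H99.BinDet

open Pool.Agent.H7.Comp

variable {α β γ : Type} [Enc α] [Enc β] [Enc γ]

/-- Natural numbers, to be encoded in binary. -/
@[ext]
structure BN : Type where
  /-- the number -/
  val : ℕ

/-- The encoding: the list of binary digits, least significant digit first. -/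
instance : Enc BN := ⟨fun x => encList (Nat.bits x.val)⟩

instance : Zero BN := ⟨⟨0⟩⟩
instance : One BN := ⟨⟨1⟩⟩
instance : Inhabited BN := ⟨⟨0⟩⟩

lemma enc_bn (x : BN) : enc x = encList (Nat.bits x.val) := rfl

lemma sz_bits_le (l : List Bool) : sz l ≤ 4 * l.length + 1 := by
  induction l with
  | nil => simp [sz_nil]
  | cons a l ih =>
    rw [sz_cons, List.length_cons]
    have := sz_bool_le a
    omega

lemma le_sz_list (l : List β) : l.length ≤ sz l := by
  induction l with
  | nil => simp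
  | cons a l ih =>
    rw [sz_cons, List.length_cons]
    omega

lemma sz_bn_le (x : BN) : sz x ≤ 4 * Nat.size x.val + 1 := by
  have h : sz x = sz (Nat.bits x.val) := rfl
  rw [h, ← Nat.size_eq_bits_len]
  exact sz_bits_le _

lemma size_le_sz (x : BN) : Nat.size x.val ≤ sz x := by
  have h : sz x = sz (Nat.bits x.val) := rfl
  rw [h, ← Nat.size_eq_bits_len]
  exact le_sz_list _

lemma val_lt_pow (x : BN) : x.val < 2 ^ sz x :=
  (Nat.lt_size_self x.val).trans_le (Nat.pow_le_pow_right (by norm_num) (size_le_sz x))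

lemma sz_bn_le_of_lt {x : BN} {k : ℕ} (h : x.val < 2 ^ k) : sz x ≤ 4 * k + 1 := by
  have h1 := sz_bn_le x
  have h2 := Nat.size_le.mpr h
  omega

/-! ### Primitive operations -/

lemma PT.bnBits : PT (fun x : BN => Nat.bits x.val) :=
  ⟨.id, fun _ => 1, PB.const 1, PB.mono PB.self (fun _ => le_rfl), fun _ => ⟨1, le_rfl, Run.id _⟩⟩

lemma bits_div2 (x : ℕ) : Nat.bits (x / 2) = (Nat.bits x).tail := by
  rcases Nat.even_or_odd' x with ⟨c, h | h⟩
  · subst h
    rw [Nat.mul_div_cancel_left c (by norm_num)]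
    rcases Nat.eq_zero_or_pos c with h0 | h0
    · subst h0; simp
    · rw [Nat.bit0_bits c (by omega)]; rfl
  · subst h
    have : (2 * c + 1) / 2 = c := by omega
    rw [this, Nat.bit1_bits]
    rfl

lemma PT.bnDiv2 : PT (fun x : BN => (⟨x.val / 2⟩ : BN)) := by
  obtain ⟨p, T, hT, hs, hr⟩ := PT.tail' (β := Bool)
  refine ⟨.tl, fun _ => 1, PB.const 1, ?_, ?_⟩
  · refine PB.mono PB.self (fun x => ?_)
    show sz (Nat.bits (x.val / 2)) ≤ sz (Nat.bits x.val)
    rw [bits_div2]
    exact sz_tail_le _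
  · intro x
    refine ⟨1, le_rfl, ?_⟩
    show Run .tl (encList (Nat.bits x.val)) (encList (Nat.bits (x.val / 2))) 1
    rw [bits_div2]
    cases Nat.bits x.val with
    | nil => exact Run.tl_nil
    | cons a l => exact Run.tl_node _ _

lemma PT.bnOdd : PT (fun x : BN => decide (x.val % 2 = 1)) := by
  refine ⟨.hd, fun _ => 1, PB.const 1, PB.mono (PB.const 3) (fun n => sz_bool_le _), ?_⟩
  intro x
  refine ⟨1, le_rfl, ?_⟩
  show Run .hd (encList (Nat.bits x.val)) (encBool (decide (x.val % 2 = 1))) 1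
  rcases Nat.even_or_odd' x.val with ⟨c, h | h⟩
  · have h1 : decide (x.val % 2 = 1) = false := by
      rw [h]; simp
    rw [h1, h]
    rcases Nat.eq_zero_or_pos c with h0 | h0
    · subst h0
      exact Run.hd_nil
    · rw [Nat.bit0_bits c (by omega)]
      exact Run.hd_node _ _
  · have h1 : decide (x.val % 2 = 1) = true := by
      rw [h, decide_eq_true_eq]; omega
    rw [h1, h, Nat.bit1_bits]
    exact Run.hd_node _ _

/-- Appending a digit. -/
lemma PT.bnCons : PT (fun p : Bool × BN => (⟨2 * p.2.val + p.1.toNat⟩ : BN)) := by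
  have hkey : ∀ (b : Bool) (x : ℕ), (b = false ∧ x = 0 ∧ Nat.bits (2 * x + b.toNat) = []) ∨
      ((b = true ∨ (b = false ∧ x ≠ 0)) ∧ Nat.bits (2 * x + b.toNat) = b :: Nat.bits x) := by
    intro b x
    cases b with
    | true => exact Or.inr ⟨Or.inl rfl, by rw [Bool.toNat_true, Nat.bit1_bits]⟩
    | false =>
      rcases Nat.eq_zero_or_pos x with h0 | h0
      · exact Or.inl ⟨rfl, h0, by subst h0; simp⟩
      · exact Or.inr ⟨Or.inr ⟨rfl, by omega⟩, by
          rw [Bool.toNat_false, add_zero, Nat.bit0_bits x (by omega)]⟩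
  refine ⟨.cond .hd .id (.cond .tl .id .nil), fun _ => 10, PB.const 10, ?_, ?_⟩
  · refine PB.mono PB.self (fun p => ?_)
    rcases p with ⟨b, x⟩
    show sz (Nat.bits (2 * x.val + b.toNat)) ≤ sz (b, x)
    rcases hkey b x.val with ⟨_, _, h⟩ | ⟨_, h⟩
    · rw [h, sz_nil]; exact sz_pos _
    · rw [h]; exact le_rfl
  · rintro ⟨b, x⟩
    show ∃ t, t ≤ 10 ∧ Run _ (.node (encBool b) (encList (Nat.bits x.val)))
      (encList (Nat.bits (2 * x.val + b.toNat))) t
    rcases hkey b x.val with ⟨hb, hx, h⟩ | ⟨hb, h⟩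
    · rw [h, hb, hx]
      refine ⟨1 + (1 + 1 + 1) + 1, by norm_num, ?_⟩
      exact Run.cond_false (Run.hd_node _ _) (Run.cond_false (Run.tl_node _ _) (Run.nil _))
    · rw [h]
      rcases hb with hb | ⟨hb, hx⟩
      · subst hb
        exact ⟨1 + 1 + 1, by norm_num, Run.cond_true (Run.hd_node _ _) (Run.id _)⟩
      · subst hb
        refine ⟨1 + (1 + 1 + 1) + 1, by norm_num, Run.cond_false (Run.hd_node _ _) ?_⟩
        rcases hl : Nat.bits x.val with _ | ⟨a, l⟩
        · exfalso
          apply hx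
          have h3 := Nat.size_eq_bits_len x.val
          rw [hl, List.length_nil] at h3
          exact Nat.size_eq_zero.mp h3.symm
        · exact Run.cond_true (Run.tl_node _ _) (Run.id _)

/-- The length of a list, in unary. -/
lemma PT.length' : PT (fun l : List β => l.length) := by
  let body : Prog := .pair (.seq .hd .tl) (.pair .nil .tl)
  have hloop : ∀ (l : List β) (k : ℕ), ∃ t, t ≤ 10 * l.length + 2 ∧
      Run (.loop .hd body) (.node (encList l) (encNat k))
        (.node .nil (encNat (k + l.length))) t := by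
    intro l
    induction l with
    | nil =>
      intro k
      exact ⟨1 + 1, by simp, Run.loop_stop (Run.hd_node _ _)⟩
    | cons a l ih =>
      intro k
      obtain ⟨t, ht, hrun⟩ := ih (k + 1)
      have hbody : Run body (.node (encList (a :: l)) (encNat k))
          (.node (encList l) (encNat (k + 1))) 7 := by
        have h := Run.pair (Run.seq (Run.hd_node (encList (a :: l)) (encNat k))
          (Run.tl_node (enc a) (encList l))) (Run.pair (Run.nil (.node (encList (a :: l))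
            (encNat k))) (Run.tl_node (encList (a :: l)) (encNat k)))
        exact h
      have h := Run.loop_step (Run.hd_node (encList (a :: l)) (encNat k)) hbody hrun
      refine ⟨1 + 7 + t + 1, ?_, ?_⟩
      · rw [List.length_cons]; omega
      · have e : k + 1 + l.length = k + (a :: l).length := by rw [List.length_cons]; omega
        rw [← e]
        exact h
  refine ⟨.seq (.pair .id .nil) (.seq (.loop .hd body) .tl),
    fun l => 10 * l.length + 20, ?_, ?_, ?_⟩
  · exact PB.mono (((PB.const 10).mul PB.self).add (PB.const 20))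
      (fun l => by have := le_sz_list l; omega)
  · refine PB.mono ((PB.const 2).mul PB.self |>.add (PB.const 1)) (fun l => ?_)
    show sz l.length ≤ 2 * sz l + 1
    rw [sz_nat]
    have := le_sz_list l
    omega
  · intro l
    obtain ⟨t, ht, hrun⟩ := hloop l 0
    have h := Run.seq (Run.pair (Run.id (enc l)) (Run.nil (enc l)))
      (Run.seq hrun (Run.tl_node _ _))
    rw [zero_add] at h
    exact ⟨_, by show (1 + 1 + 1) + (t + 1 + 1) + 1 ≤ 10 * l.length + 20; omega, h⟩

lemma PT.length {f : α → List β} (hf : PT f) : PT (fun x => (f x).length) := PT.length'.comp hf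

/-- The number of binary digits, in unary. -/
lemma PT.bnSize {f : α → BN} (hf : PT f) : PT (fun x => Nat.size (f x).val) :=
  (PT.length (PT.bnBits.comp hf)).congr (fun _ => Nat.size_eq_bits_len _)

lemma PT.bnMk {f : α → ℕ} {g : α → BN} (hg : PT g) (h : ∀ x, (g x).val = f x) :
    PT (fun x => (⟨f x⟩ : BN)) :=
  hg.congr (fun x => BN.ext (h x))

/-- Shift to the right by a unary number. -/
lemma PT.bnShift' : PT (fun p : BN × ℕ => (⟨p.1.val / 2 ^ p.2⟩ : BN)) := by
  refine PT.iterClosed (fun (p : BN × ℕ) i => (⟨p.1.val / 2 ^ i⟩ : BN))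
    (fun (q : (BN × ℕ) × ℕ × BN) => (⟨q.2.2.val / 2⟩ : BN)) PT.snd ?_ ?_ ?_
    (fun p => 4 * sz p.1 + 1) ?_ ?_
  · exact PT.fst.congr (fun p => by simp)
  · exact PT.bnDiv2.comp (PT.snd.comp PT.snd)
  · intro p i _
    simp only [BN.mk.injEq]
    rw [pow_succ, Nat.div_div_eq_div_mul]
  · exact ((PB.const 4).mul PB.fst).add (PB.const 1)
  · intro p i _
    exact sz_bn_le_of_lt ((Nat.div_le_self _ _).trans_lt (val_lt_pow p.1))

lemma PT.bnShift {f : α → BN} {g : α → ℕ} (hf : PT f) (hg : PT g) :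
    PT (fun x => (⟨(f x).val / 2 ^ (g x)⟩ : BN)) := PT.bnShift'.comp (hf.pair hg)

/-- A digit of a binary number. -/
lemma PTp.bnBit {f : α → BN} {g : α → ℕ} (hf : PT f) (hg : PT g) :
    PTp (fun x => (f x).val / 2 ^ (g x) % 2 = 1) :=
  ⟨_, PT.bnOdd.comp (PT.bnShift hf hg), fun x => by simp⟩

lemma PT.bnBit0 {f : α → BN} (hf : PT f) : PT (fun x => (⟨2 * (f x).val⟩ : BN)) :=
  (PT.bnCons.comp ((PT.const false).pair hf)).congr (fun x => by simp)

lemma PT.bnBit1 {f : α → BN} (hf : PT f) : PT (fun x => (⟨2 * (f x).val + 1⟩ : BN)) :=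
  (PT.bnCons.comp ((PT.const true).pair hf)).congr (fun x => by simp)

lemma div_pow_sub {x N i : ℕ} (hi : i < N) :
    x / 2 ^ (N - (i + 1)) = 2 * (x / 2 ^ (N - i)) + (x / 2 ^ (N - (i + 1))) % 2 := by
  have e : N - i = (N - (i + 1)) + 1 := by omega
  rw [e, pow_succ, ← Nat.div_div_eq_div_mul]
  omega

lemma div_pow_size {x N : ℕ} (h : Nat.size x ≤ N) : x / 2 ^ N = 0 :=
  Nat.div_eq_of_lt (Nat.size_le.mp h)

def addF (p : BN × BN) (i : ℕ) : BN × BN :=
  ((⟨p.1.val / 2 ^ (Nat.size p.1.val + Nat.size p.2.val - i)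
          + p.2.val / 2 ^ (Nat.size p.1.val + Nat.size p.2.val - i)⟩ : BN),
        (⟨p.1.val / 2 ^ (Nat.size p.1.val + Nat.size p.2.val - i)
          + p.2.val / 2 ^ (Nat.size p.1.val + Nat.size p.2.val - i) + 1⟩ : BN))

/-- Addition. -/
lemma PT.bnAdd' : PT (fun p : BN × BN => (⟨p.1.val + p.2.val⟩ : BN)) := by
  have hN : PT (fun p : BN × BN => Nat.size p.1.val + Nat.size p.2.val) :=
    (PT.bnSize PT.fst).add (PT.bnSize PT.snd)
  have h : PT (fun p : BN × BN => addF p (Nat.size p.1.val + Nat.size p.2.val)) := by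
    refine PT.iterClosed (α := BN × BN) addF
      (fun q : (BN × BN) × ℕ × (BN × BN) =>
        if q.1.1.val / 2 ^ (Nat.size q.1.1.val + Nat.size q.1.2.val - (q.2.1 + 1)) % 2 = 1 then
          (if q.1.2.val / 2 ^ (Nat.size q.1.1.val + Nat.size q.1.2.val - (q.2.1 + 1)) % 2 = 1 then
            ((⟨2 * q.2.2.2.val⟩ : BN), (⟨2 * q.2.2.2.val + 1⟩ : BN))
           else ((⟨2 * q.2.2.1.val + 1⟩ : BN), (⟨2 * q.2.2.2.val⟩ : BN)))
        else
          (if q.1.2.val / 2 ^ (Nat.size q.1.1.val + Nat.size q.1.2.val - (q.2.1 + 1)) % 2 = 1 then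
            ((⟨2 * q.2.2.1.val + 1⟩ : BN), (⟨2 * q.2.2.2.val⟩ : BN))
           else ((⟨2 * q.2.2.1.val⟩ : BN), (⟨2 * q.2.2.1.val + 1⟩ : BN))))
      hN ?_ ?_ ?_
      (fun p => 8 * (sz p.1 + sz p.2) + 20) ?_ ?_
    · refine (PT.const ((⟨0⟩ : BN), (⟨1⟩ : BN))).congr (fun p => ?_)
      simp only [Nat.sub_zero, addF]
      rw [div_pow_size (Nat.le_add_right _ _), div_pow_size (Nat.le_add_left _ _)]
    · have hidx : PT (fun q : (BN × BN) × ℕ × (BN × BN) =>
          Nat.size q.1.1.val + Nat.size q.1.2.val - (q.2.1 + 1)) :=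
        (hN.comp PT.fst).sub (PT.succ.comp (PT.fst.comp PT.snd))
      have hx : PTp (fun q : (BN × BN) × ℕ × (BN × BN) =>
          q.1.1.val / 2 ^ (Nat.size q.1.1.val + Nat.size q.1.2.val - (q.2.1 + 1)) % 2 = 1) :=
        PTp.bnBit (PT.fst.comp PT.fst) hidx
      have hy : PTp (fun q : (BN × BN) × ℕ × (BN × BN) =>
          q.1.2.val / 2 ^ (Nat.size q.1.1.val + Nat.size q.1.2.val - (q.2.1 + 1)) % 2 = 1) :=
        PTp.bnBit (PT.snd.comp PT.fst) hidx
      have hs0 : PT (fun q : (BN × BN) × ℕ × (BN × BN) => q.2.2.1) :=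
        PT.fst.comp (PT.snd.comp PT.snd)
      have hs1 : PT (fun q : (BN × BN) × ℕ × (BN × BN) => q.2.2.2) :=
        PT.snd.comp (PT.snd.comp PT.snd)
      exact PT.ite hx (PT.ite hy ((PT.bnBit0 hs1).pair (PT.bnBit1 hs1))
        ((PT.bnBit1 hs0).pair (PT.bnBit0 hs1))) (PT.ite hy
        ((PT.bnBit1 hs0).pair (PT.bnBit0 hs1)) ((PT.bnBit0 hs0).pair (PT.bnBit1 hs0)))
    · rintro ⟨⟨x⟩, ⟨y⟩⟩ i hi
      simp only [addF] at hi ⊢
      have hx := div_pow_sub (x := x) hi
      have hy := div_pow_sub (x := y) hi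
      generalize x / 2 ^ (Nat.size x + Nat.size y - (i + 1)) = X' at hx ⊢
      generalize y / 2 ^ (Nat.size x + Nat.size y - (i + 1)) = Y' at hy ⊢
      generalize x / 2 ^ (Nat.size x + Nat.size y - i) = X at hx ⊢
      generalize y / 2 ^ (Nat.size x + Nat.size y - i) = Y at hy ⊢
      split_ifs with h1 h2 h2 <;> simp only [Prod.mk.injEq, BN.mk.injEq] <;> omega
    · exact ((PB.const 8).mul (PB.fst.add PB.snd)).add (PB.const 20)
    · rintro ⟨x, y⟩ i hi
      simp only [addF]
      have h1 := val_lt_pow x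
      have h2 := val_lt_pow y
      have h3 : x.val / 2 ^ (Nat.size x.val + Nat.size y.val - i) ≤ x.val := Nat.div_le_self _ _
      have h4 : y.val / 2 ^ (Nat.size x.val + Nat.size y.val - i) ≤ y.val := Nat.div_le_self _ _
      have h5 : 2 ^ (sz x) ≤ 2 ^ (sz x + sz y) := Nat.pow_le_pow_right (by norm_num) (by omega)
      have h6 : 2 ^ (sz y) ≤ 2 ^ (sz x + sz y) := Nat.pow_le_pow_right (by norm_num) (by omega)
      have h7 : 2 ^ (sz x + sz y + 1) = 2 * 2 ^ (sz x + sz y) := by rw [pow_succ]; ring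
      rw [sz_pair]
      have h8 := sz_bn_le_of_lt (x := (⟨x.val / 2 ^ (Nat.size x.val + Nat.size y.val - i)
          + y.val / 2 ^ (Nat.size x.val + Nat.size y.val - i)⟩ : BN)) (k := sz x + sz y + 1)
          (by simp only; omega)
      have h9 := sz_bn_le_of_lt (x := (⟨x.val / 2 ^ (Nat.size x.val + Nat.size y.val - i)
          + y.val / 2 ^ (Nat.size x.val + Nat.size y.val - i) + 1⟩ : BN)) (k := sz x + sz y + 1)
          (by simp only; omega)
      omega
  refine (PT.fst.comp h).congr (fun p => ?_)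
  simp [addF]

lemma PT.bnAdd {f g : α → BN} (hf : PT f) (hg : PT g) :
    PT (fun x => (⟨(f x).val + (g x).val⟩ : BN)) := PT.bnAdd'.comp (hf.pair hg)

def mulF (p : BN × BN) (i : ℕ) : BN :=
  ⟨p.1.val / 2 ^ (Nat.size p.1.val - i) * p.2.val⟩

/-- Multiplication. -/
lemma PT.bnMul' : PT (fun p : BN × BN => (⟨p.1.val * p.2.val⟩ : BN)) := by
  have hN : PT (fun p : BN × BN => Nat.size p.1.val) := PT.bnSize PT.fst
  have h : PT (fun p : BN × BN => mulF p (Nat.size p.1.val)) := by
    refine PT.iterClosed (α := BN × BN) mulF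
      (fun q : (BN × BN) × ℕ × BN =>
        if q.1.1.val / 2 ^ (Nat.size q.1.1.val - (q.2.1 + 1)) % 2 = 1 then
          (⟨(⟨2 * q.2.2.val⟩ : BN).val + q.1.2.val⟩ : BN)
        else (⟨2 * q.2.2.val⟩ : BN))
      hN ?_ ?_ ?_
      (fun p => 4 * (sz p.1 + sz p.2) + 20) ?_ ?_
    · refine (PT.const (⟨0⟩ : BN)).congr (fun p => ?_)
      simp only [Nat.sub_zero, mulF]
      rw [div_pow_size le_rfl, zero_mul]
    · have hidx : PT (fun q : (BN × BN) × ℕ × BN =>
          Nat.size q.1.1.val - (q.2.1 + 1)) :=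
        (hN.comp PT.fst).sub (PT.succ.comp (PT.fst.comp PT.snd))
      have hx : PTp (fun q : (BN × BN) × ℕ × BN =>
          q.1.1.val / 2 ^ (Nat.size q.1.1.val - (q.2.1 + 1)) % 2 = 1) :=
        PTp.bnBit (PT.fst.comp PT.fst) hidx
      have hs : PT (fun q : (BN × BN) × ℕ × BN => q.2.2) := PT.snd.comp PT.snd
      exact PT.ite hx (PT.bnAdd (PT.bnBit0 hs) (PT.snd.comp PT.fst)) (PT.bnBit0 hs)
    · rintro ⟨⟨x⟩, ⟨y⟩⟩ i hi
      simp only [mulF] at hi ⊢
      have hx := div_pow_sub (x := x) hi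
      generalize x / 2 ^ (Nat.size x - (i + 1)) = X' at hx ⊢
      generalize x / 2 ^ (Nat.size x - i) = X at hx ⊢
      split_ifs with h1
      · rw [h1] at hx
        rw [hx]
        simp only [BN.mk.injEq]
        ring
      · have h2 : X' % 2 = 0 := by omega
        rw [h2] at hx
        rw [hx]
        simp only [BN.mk.injEq]
        ring
    · exact ((PB.const 4).mul (PB.fst.add PB.snd)).add (PB.const 20)
    · rintro ⟨x, y⟩ i hi
      simp only [mulF]
      have h1 := val_lt_pow x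
      have h2 := val_lt_pow y
      have h3 : x.val / 2 ^ (Nat.size x.val - i) ≤ x.val := Nat.div_le_self _ _
      have h8 := sz_bn_le_of_lt (x := (⟨x.val / 2 ^ (Nat.size x.val - i) * y.val⟩ : BN))
          (k := sz x + sz y) (by
            simp only
            rw [pow_add]
            exact Nat.mul_lt_mul'' (by omega) h2)
      omega
  refine h.congr (fun p => ?_)
  simp [mulF]

lemma PT.bnMul {f g : α → BN} (hf : PT f) (hg : PT g) :
    PT (fun x => (⟨(f x).val * (g x).val⟩ : BN)) := PT.bnMul'.comp (hf.pair hg)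

def ltF (p : BN × BN) (i : ℕ) : Bool × Bool :=
      (decide (p.1.val / 2 ^ (Nat.size p.1.val + Nat.size p.2.val - i)
          < p.2.val / 2 ^ (Nat.size p.1.val + Nat.size p.2.val - i)),
       decide (p.1.val / 2 ^ (Nat.size p.1.val + Nat.size p.2.val - i)
          ≤ p.2.val / 2 ^ (Nat.size p.1.val + Nat.size p.2.val - i)))

/-- Comparison. -/
lemma PTp.bnLt' : PTp (fun p : BN × BN => p.1.val < p.2.val) := by
  have hN : PT (fun p : BN × BN => Nat.size p.1.val + Nat.size p.2.val) :=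
    (PT.bnSize PT.fst).add (PT.bnSize PT.snd)
  have h : PT (fun p : BN × BN => ltF p (Nat.size p.1.val + Nat.size p.2.val)) := by
    refine PT.iterClosed (α := BN × BN) ltF
      (fun q : (BN × BN) × ℕ × (Bool × Bool) =>
        if q.1.1.val / 2 ^ (Nat.size q.1.1.val + Nat.size q.1.2.val - (q.2.1 + 1)) % 2 = 1 then
          (if q.1.2.val / 2 ^ (Nat.size q.1.1.val + Nat.size q.1.2.val - (q.2.1 + 1)) % 2 = 1 then
            q.2.2
           else (q.2.2.1, q.2.2.1))
        else
          (if q.1.2.val / 2 ^ (Nat.size q.1.1.val + Nat.size q.1.2.val - (q.2.1 + 1)) % 2 = 1 then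
            (q.2.2.2, q.2.2.2)
           else q.2.2))
      hN ?_ ?_ ?_
      (fun _ => 7) ?_ ?_
    · refine (PT.const (false, true)).congr (fun p => ?_)
      have e1 : p.1.val / 2 ^ (Nat.size p.1.val + Nat.size p.2.val) = 0 :=
        div_pow_size (Nat.le_add_right _ _)
      have e2 : p.2.val / 2 ^ (Nat.size p.1.val + Nat.size p.2.val) = 0 :=
        div_pow_size (Nat.le_add_left _ _)
      simp [ltF, e1, e2]
    · have hidx : PT (fun q : (BN × BN) × ℕ × (Bool × Bool) =>
          Nat.size q.1.1.val + Nat.size q.1.2.val - (q.2.1 + 1)) :=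
        (hN.comp PT.fst).sub (PT.succ.comp (PT.fst.comp PT.snd))
      have hx : PTp (fun q : (BN × BN) × ℕ × (Bool × Bool) =>
          q.1.1.val / 2 ^ (Nat.size q.1.1.val + Nat.size q.1.2.val - (q.2.1 + 1)) % 2 = 1) :=
        PTp.bnBit (PT.fst.comp PT.fst) hidx
      have hy : PTp (fun q : (BN × BN) × ℕ × (Bool × Bool) =>
          q.1.2.val / 2 ^ (Nat.size q.1.1.val + Nat.size q.1.2.val - (q.2.1 + 1)) % 2 = 1) :=
        PTp.bnBit (PT.snd.comp PT.fst) hidx
      have hs : PT (fun q : (BN × BN) × ℕ × (Bool × Bool) => q.2.2) := PT.snd.comp PT.snd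
      have hs0 : PT (fun q : (BN × BN) × ℕ × (Bool × Bool) => q.2.2.1) := PT.fst.comp hs
      have hs1 : PT (fun q : (BN × BN) × ℕ × (Bool × Bool) => q.2.2.2) := PT.snd.comp hs
      exact PT.ite hx (PT.ite hy hs (hs0.pair hs0)) (PT.ite hy (hs1.pair hs1) hs)
    · rintro ⟨⟨x⟩, ⟨y⟩⟩ i hi
      simp only [ltF] at hi ⊢
      have hx := div_pow_sub (x := x) hi
      have hy := div_pow_sub (x := y) hi
      generalize x / 2 ^ (Nat.size x + Nat.size y - (i + 1)) = X' at hx ⊢
      generalize y / 2 ^ (Nat.size x + Nat.size y - (i + 1)) = Y' at hy ⊢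
      generalize x / 2 ^ (Nat.size x + Nat.size y - i) = X at hx ⊢
      generalize y / 2 ^ (Nat.size x + Nat.size y - i) = Y at hy ⊢
      split_ifs with h1 h2 h2 <;> simp only [Prod.mk.injEq, decide_eq_decide] <;> omega
    · exact PB.const 7
    · rintro ⟨x, y⟩ i hi
      simp only [ltF]
      rw [sz_pair]
      have h1 := sz_bool_le (decide (x.val / 2 ^ (Nat.size x.val + Nat.size y.val - i)
          < y.val / 2 ^ (Nat.size x.val + Nat.size y.val - i)))
      have h2 := sz_bool_le (decide (x.val / 2 ^ (Nat.size x.val + Nat.size y.val - i)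
          ≤ y.val / 2 ^ (Nat.size x.val + Nat.size y.val - i)))
      omega
  refine ⟨_, PT.fst.comp h, fun p => ?_⟩
  simp [ltF]

lemma PTp.bnLt {f g : α → BN} (hf : PT f) (hg : PT g) : PTp (fun x => (f x).val < (g x).val) :=
  PTp.bnLt'.comp (hf.pair hg)

lemma PTp.bnLe {f g : α → BN} (hf : PT f) (hg : PT g) : PTp (fun x => (f x).val ≤ (g x).val) :=
  (PTp.bnLt hg hf).not.congr (fun x => by omega)

lemma PTp.bnEq {f g : α → BN} (hf : PT f) (hg : PT g) : PTp (fun x => (f x).val = (g x).val) :=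
  ((PTp.bnLe hf hg).and (PTp.bnLe hg hf)).congr (fun x => by omega)

/-- The value of a unary number, in binary. -/
lemma PT.bnOfNat' : PT (fun n : ℕ => (⟨n⟩ : BN)) := by
  refine PT.iterClosed (α := ℕ) (fun _ i => (⟨i⟩ : BN))
    (fun q : ℕ × ℕ × BN => (⟨q.2.2.val + (⟨1⟩ : BN).val⟩ : BN)) PT.id ?_ ?_ ?_
    (fun n => 4 * n + 1) ?_ ?_
  · exact PT.const _
  · exact PT.bnAdd (PT.snd.comp PT.snd) (PT.const (⟨1⟩ : BN))
  · intro n i _
    rfl
  · exact ((PB.const 4).mul PB.natval).add (PB.const 1)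
  · intro n i hi
    exact sz_bn_le_of_lt ((Nat.lt_two_pow_self).trans_le (Nat.pow_le_pow_right (by norm_num) hi))

lemma PT.bnOfNat {f : α → ℕ} (hf : PT f) : PT (fun x => (⟨f x⟩ : BN)) := PT.bnOfNat'.comp hf

/-- The composition of a polynomial bound with a pair. -/
lemma PB.pairComp {M : α × ℕ → ℕ} {n : α → ℕ} (hM : PB M) (hn : PT n) :
    ∃ B : α → ℕ, PB B ∧ ∀ x i, i ≤ n x → M (x, i) ≤ B x := by
  obtain ⟨c, hc⟩ := hM
  refine ⟨fun x => (sz x + (2 * n x + 1) + 1 + 2) ^ c, ?_, ?_⟩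
  · have h1 : PB (fun x : α => sz x + (2 * n x + 1) + 1) :=
      ((PB.self).add (((PB.const 2).mul hn.value).add (PB.const 1))).add (PB.const 1)
    obtain ⟨d, hd⟩ := h1
    refine ⟨(d + 1) * c, fun x => ?_⟩
    have h3 := base_ge x
    have h4 : 1 ≤ (sz x + 2) ^ d := Nat.one_le_pow _ _ (by omega)
    have h5 : sz x + (2 * n x + 1) + 1 + 2 ≤ (sz x + 2) ^ (d + 1) := by
      rw [pow_succ]
      have := hd x
      simp only at this
      nlinarith
    rw [pow_mul]
    exact Nat.pow_le_pow_left h5 c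
  · intro x i hi
    refine (hc (x, i)).trans ?_
    apply Nat.pow_le_pow_left
    rw [sz_pair, sz_nat]
    omega

/-- Sums over ranges. -/
lemma PT.bnSum {n : α → ℕ} {f : α → ℕ → BN} (hn : PT n)
    (hf : PT (fun p : α × ℕ => f p.1 p.2)) :
    PT (fun x => (⟨∑ i ∈ Finset.range (n x), (f x i).val⟩ : BN)) := by
  obtain ⟨B, hB, hBb⟩ := PB.pairComp hf.size hn
  refine PT.iterClosed (fun x m => (⟨∑ i ∈ Finset.range m, (f x i).val⟩ : BN))
    (fun q => (⟨q.2.2.val + (f q.1 q.2.1).val⟩ : BN)) hn ?_ ?_ ?_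
    (fun x => 4 * (n x + B x) + 1) ?_ ?_
  · exact (PT.const (⟨0⟩ : BN)).congr (fun x => by simp)
  · exact PT.bnAdd (PT.snd.comp PT.snd) (hf.comp (PT.fst.pair (PT.fst.comp PT.snd)))
  · intro x i _
    simp only [Finset.sum_range_succ]
  · exact ((PB.const 4).mul (hn.value.add hB)).add (PB.const 1)
  · intro x i hi
    apply sz_bn_le_of_lt
    simp only
    have h1 : ∀ m, m ≤ n x → ∑ j ∈ Finset.range m, (f x j).val ≤ m * 2 ^ B x := by
      intro m hm
      induction m with
      | zero => simp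
      | succ m ih =>
        rw [Finset.sum_range_succ]
        have h2 := val_lt_pow (f x m)
        have h3 : 2 ^ sz (f x m) ≤ 2 ^ B x :=
          Nat.pow_le_pow_right (by norm_num) (hBb x m (by omega))
        have h4 := ih (by omega)
        have h5 : (m + 1) * 2 ^ B x = m * 2 ^ B x + 2 ^ B x := by ring
        omega
    have h2 := h1 i hi
    have h3 : i < 2 ^ n x := Nat.lt_of_le_of_lt hi Nat.lt_two_pow_self
    have h4 : 0 < 2 ^ B x := by positivity
    calc ∑ j ∈ Finset.range i, (f x j).val ≤ i * 2 ^ B x := h2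
      _ < 2 ^ n x * 2 ^ B x := Nat.mul_lt_mul_of_pos_right h3 h4
      _ = _ := by rw [pow_add]

end Pool.Agent.H99.BinDet
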