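import Mathlib
import Pool.Agent.H7.Comp.Arith
import Pool.Agent.H99.BinDet.BN
import Pool.Agent.H99.BinDet.EncInt

/-!
# Integers in polynomial time

Polynomial-time arithmetic on integers in binary.
-/

namespace Pool.Agent.H99.BinDet

open Pool.Agent.H7.Comp

variable {α β γ : Type} [Enc α] [Enc β] [Enc γ]

/-- Changing the type without changing the encoding. -/
lemma PT.recode {f : α → β} {h : α → γ} (hf : PT f) (e : ∀ x, enc (h x) = enc (f x)) : PT h := by
  obtain ⟨p, T, hT, hs, hr⟩ := hf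
  refine ⟨p, T, hT, PB.mono hs (fun x => ?_), fun x => ?_⟩
  · show (enc (h x)).size ≤ (enc (f x)).size
    rw [e]
  · rw [e]
    exact hr x

/-! ### Truncated subtraction of binary numbers -/

def subF (p : BN × BN) (i : ℕ) : BN × BN :=
  (⟨p.1.val / 2 ^ (Nat.size p.1.val - i) - min p.1.val p.2.val / 2 ^ (Nat.size p.1.val - i)⟩,
   ⟨p.1.val / 2 ^ (Nat.size p.1.val - i) - min p.1.val p.2.val / 2 ^ (Nat.size p.1.val - i) - 1⟩)

lemma PT.bnMin : PT (fun p : BN × BN => (⟨min p.1.val p.2.val⟩ : BN)) := by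
  refine (PT.ite (PTp.bnLe PT.fst PT.snd) PT.fst PT.snd).congr (fun p => ?_)
  split_ifs with h
  · rw [min_eq_left h]
  · rw [min_eq_right (by omega)]

lemma PT.bnSub' : PT (fun p : BN × BN => (⟨p.1.val - p.2.val⟩ : BN)) := by
  have hN : PT (fun p : BN × BN => Nat.size p.1.val) := PT.bnSize PT.fst
  have h : PT (fun p : BN × BN => subF p (Nat.size p.1.val)) := by
    refine PT.iterClosed (α := BN × BN) subF
      (fun q : (BN × BN) × ℕ × (BN × BN) =>
        if q.1.1.val / 2 ^ (Nat.size q.1.1.val - (q.2.1 + 1)) % 2 = 1 then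
          (if min q.1.1.val q.1.2.val / 2 ^ (Nat.size q.1.1.val - (q.2.1 + 1)) % 2 = 1 then
            ((⟨2 * q.2.2.1.val⟩ : BN), (if q.2.2.1.val = 0 then (⟨0⟩ : BN)
              else ⟨2 * q.2.2.2.val + 1⟩))
           else ((⟨2 * q.2.2.1.val + 1⟩ : BN), (⟨2 * q.2.2.1.val⟩ : BN)))
        else
          (if min q.1.1.val q.1.2.val / 2 ^ (Nat.size q.1.1.val - (q.2.1 + 1)) % 2 = 1 then
            ((⟨2 * q.2.2.2.val + 1⟩ : BN), (⟨2 * q.2.2.2.val⟩ : BN))
           else ((⟨2 * q.2.2.1.val⟩ : BN), (if q.2.2.1.val = 0 then (⟨0⟩ : BN)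
              else ⟨2 * q.2.2.2.val + 1⟩))))
      hN ?_ ?_ ?_
      (fun p => 8 * (sz p.1 + sz p.2) + 20) ?_ ?_
    · refine (PT.const ((⟨0⟩ : BN), (⟨0⟩ : BN))).congr (fun p => ?_)
      have e1 : p.1.val / 2 ^ (Nat.size p.1.val) = 0 := div_pow_size le_rfl
      simp [subF, e1]
    · have hidx : PT (fun q : (BN × BN) × ℕ × (BN × BN) =>
          Nat.size q.1.1.val - (q.2.1 + 1)) :=
        (hN.comp PT.fst).sub (PT.succ.comp (PT.fst.comp PT.snd))
      have hx : PTp (fun q : (BN × BN) × ℕ × (BN × BN) =>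
          q.1.1.val / 2 ^ (Nat.size q.1.1.val - (q.2.1 + 1)) % 2 = 1) :=
        PTp.bnBit (PT.fst.comp PT.fst) hidx
      have hy : PTp (fun q : (BN × BN) × ℕ × (BN × BN) =>
          min q.1.1.val q.1.2.val / 2 ^ (Nat.size q.1.1.val - (q.2.1 + 1)) % 2 = 1) :=
        PTp.bnBit (PT.bnMin.comp PT.fst) hidx
      have hs0 : PT (fun q : (BN × BN) × ℕ × (BN × BN) => q.2.2.1) :=
        PT.fst.comp (PT.snd.comp PT.snd)
      have hs1 : PT (fun q : (BN × BN) × ℕ × (BN × BN) => q.2.2.2) :=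
        PT.snd.comp (PT.snd.comp PT.snd)
      have hz : PT (fun q : (BN × BN) × ℕ × (BN × BN) => if q.2.2.1.val = 0 then (⟨0⟩ : BN)
              else ⟨2 * q.2.2.2.val + 1⟩) :=
        PT.ite (PTp.bnEq hs0 (PT.const (⟨0⟩ : BN))) (PT.const (⟨0⟩ : BN)) (PT.bnBit1 hs1)
      exact PT.ite hx (PT.ite hy ((PT.bnBit0 hs0).pair hz)
        ((PT.bnBit1 hs0).pair (PT.bnBit0 hs0))) (PT.ite hy
        ((PT.bnBit1 hs1).pair (PT.bnBit0 hs1)) ((PT.bnBit0 hs0).pair hz))
    · rintro ⟨⟨x⟩, ⟨y⟩⟩ i hi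
      simp only [subF] at hi ⊢
      have hx := div_pow_sub (x := x) hi
      have hy := div_pow_sub (x := min x y) hi
      have hle : min x y / 2 ^ (Nat.size x - (i + 1)) ≤ x / 2 ^ (Nat.size x - (i + 1)) :=
        Nat.div_le_div_right (min_le_left _ _)
      generalize x / 2 ^ (Nat.size x - (i + 1)) = X' at hx hle ⊢
      generalize min x y / 2 ^ (Nat.size x - (i + 1)) = Y' at hy hle ⊢
      generalize x / 2 ^ (Nat.size x - i) = X at hx ⊢
      generalize min x y / 2 ^ (Nat.size x - i) = Y at hy ⊢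
      split_ifs with h1 h2 h3 h2 h3 <;> simp only [Prod.mk.injEq, BN.mk.injEq] <;> omega
    · exact ((PB.const 8).mul (PB.fst.add PB.snd)).add (PB.const 20)
    · rintro ⟨x, y⟩ i hi
      simp only [subF]
      have h1 := val_lt_pow x
      have h3 : x.val / 2 ^ (Nat.size x.val - i) ≤ x.val := Nat.div_le_self _ _
      rw [sz_pair]
      have h8 := sz_bn_le_of_lt (x := (⟨x.val / 2 ^ (Nat.size x.val - i)
          - min x.val y.val / 2 ^ (Nat.size x.val - i)⟩ : BN)) (k := sz x)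
          ((Nat.sub_le _ _).trans_lt (h3.trans_lt h1))
      have h9 := sz_bn_le_of_lt (x := (⟨x.val / 2 ^ (Nat.size x.val - i)
          - min x.val y.val / 2 ^ (Nat.size x.val - i) - 1⟩ : BN)) (k := sz x)
          ((Nat.sub_le _ _).trans_lt ((Nat.sub_le _ _).trans_lt (h3.trans_lt h1)))
      omega
  refine (PT.fst.comp h).congr (fun p => ?_)
  simp only [subF, Nat.sub_self, pow_zero, Nat.div_one, BN.mk.injEq]
  omega

lemma PT.bnSub {f g : α → BN} (hf : PT f) (hg : PT g) :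
    PT (fun x => (⟨(f x).val - (g x).val⟩ : BN)) := PT.bnSub'.comp (hf.pair hg)

/-! ### Integers and binary numbers -/

lemma PT.intSplit : PT (fun z : ℤ => (decide (z < 0), (⟨z.natAbs⟩ : BN))) :=
  PT.recode (PT.id (α := ℤ)) (fun _ => rfl)

lemma PT.natAbs {f : α → ℤ} (hf : PT f) : PT (fun x => (⟨(f x).natAbs⟩ : BN)) :=
  PT.snd.comp (PT.intSplit.comp hf)

lemma PTp.intNeg' {f : α → ℤ} (hf : PT f) : PTp (fun x => f x < 0) :=
  ⟨_, PT.fst.comp (PT.intSplit.comp hf), fun x => by simp⟩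

lemma PT.bnToInt {f : α → BN} (hf : PT f) : PT (fun x => ((f x).val : ℤ)) :=
  PT.recode ((PT.const false).pair hf) (fun x => by
    show Tr.node (enc (decide (((f x).val : ℤ) < 0))) (enc (Nat.bits ((f x).val : ℤ).natAbs)) = _
    have h : decide (((f x).val : ℤ) < 0) = false := by
      rw [decide_eq_false_iff_not]; omega
    rw [h, Int.natAbs_natCast]
    rfl)

lemma PT.bnNegInt {f : α → BN} (hf : PT f) : PT (fun x => (-((f x).val : ℤ))) :=
  PT.recode ((PT.ite (PTp.bnEq hf (PT.const (⟨0⟩ : BN))) (PT.const false) (PT.const true)).pair hf)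
    (fun x => by
      show Tr.node (enc (decide (-((f x).val : ℤ) < 0))) (enc (Nat.bits (-((f x).val : ℤ)).natAbs))
        = _
      have h : decide (-((f x).val : ℤ) < 0)
          = (if (f x).val = (⟨0⟩ : BN).val then false else true) := by
        split_ifs with h0
        · rw [decide_eq_false_iff_not, h0]; simp
        · rw [decide_eq_true_eq]
          simp only at h0
          omega
      rw [h, Int.natAbs_neg, Int.natAbs_natCast]
      rfl)

/-- Positive part. -/
lemma PT.posPart {f : α → ℤ} (hf : PT f) : PT (fun x => (⟨(f x).toNat⟩ : BN)) :=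
  (PT.ite (PTp.intNeg' hf) (PT.const (⟨0⟩ : BN)) (PT.natAbs hf)).congr (fun x => by
    split_ifs with h
    · rw [Int.toNat_of_nonpos h.le]
    · simp only [BN.mk.injEq]; omega)

/-- Negative part. -/
lemma PT.negPart {f : α → ℤ} (hf : PT f) : PT (fun x => (⟨(-f x).toNat⟩ : BN)) :=
  (PT.ite (PTp.intNeg' hf) (PT.natAbs hf) (PT.const (⟨0⟩ : BN))).congr (fun x => by
    split_ifs with h
    · simp only [BN.mk.injEq]; omega
    · simp only [BN.mk.injEq]; omega)

/-- The difference of two binary numbers. -/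
lemma PT.diff {f g : α → BN} (hf : PT f) (hg : PT g) :
    PT (fun x => ((f x).val : ℤ) - ((g x).val : ℤ)) :=
  (PT.ite (PTp.bnLe hg hf) (PT.bnToInt (PT.bnSub hf hg)) (PT.bnNegInt (PT.bnSub hg hf))).congr
    (fun x => by
      split_ifs with h
      · simp only; omega
      · simp only; omega)

lemma toNat_sub_toNat (z : ℤ) : z = (z.toNat : ℤ) - ((-z).toNat : ℤ) := by omega

lemma PT.intAdd {f g : α → ℤ} (hf : PT f) (hg : PT g) : PT (fun x => f x + g x) :=
  (PT.diff (PT.bnAdd (PT.posPart hf) (PT.posPart hg))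
    (PT.bnAdd (PT.negPart hf) (PT.negPart hg))).congr (fun x => by
      simp only [Nat.cast_add]; omega)

lemma PT.intNeg {f : α → ℤ} (hf : PT f) : PT (fun x => - f x) :=
  (PT.diff (PT.negPart hf) (PT.posPart hf)).congr (fun x => by simp only; omega)

lemma PT.intSub {f g : α → ℤ} (hf : PT f) (hg : PT g) : PT (fun x => f x - g x) :=
  (PT.intAdd hf (PT.intNeg hg)).congr (fun x => by ring)

lemma PT.intMul {f g : α → ℤ} (hf : PT f) (hg : PT g) : PT (fun x => f x * g x) :=
  (PT.diff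
    (PT.bnAdd (PT.bnMul (PT.posPart hf) (PT.posPart hg)) (PT.bnMul (PT.negPart hf) (PT.negPart hg)))
    (PT.bnAdd (PT.bnMul (PT.posPart hf) (PT.negPart hg))
      (PT.bnMul (PT.negPart hf) (PT.posPart hg)))).congr (fun x => by
      have h1 := toNat_sub_toNat (f x)
      have h2 := toNat_sub_toNat (g x)
      simp only [Nat.cast_add, Nat.cast_mul]
      generalize ((f x).toNat : ℤ) = a at h1 ⊢
      generalize ((-f x).toNat : ℤ) = b at h1 ⊢
      generalize ((g x).toNat : ℤ) = c at h2 ⊢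
      generalize ((-g x).toNat : ℤ) = d at h2 ⊢
      rw [h1, h2]
      ring)

lemma PT.intPow {f : α → ℤ} (hf : PT f) : ∀ k : ℕ, PT (fun x => f x ^ k)
  | 0 => (PT.const (1 : ℤ)).congr (fun x => by simp)
  | k + 1 => (PT.intMul (PT.intPow hf k) hf).congr (fun x => by rw [pow_succ])

lemma PTp.intLt {f g : α → ℤ} (hf : PT f) (hg : PT g) : PTp (fun x => f x < g x) :=
  (PTp.intNeg' (PT.intSub hf hg)).congr (fun x => by omega)

lemma PTp.intLe {f g : α → ℤ} (hf : PT f) (hg : PT g) : PTp (fun x => f x ≤ g x) :=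
  (PTp.intLt hg hf).not.congr (fun x => by omega)

lemma PTp.intEq {f g : α → ℤ} (hf : PT f) (hg : PT g) : PTp (fun x => f x = g x) :=
  ((PTp.intLe hf hg).and (PTp.intLe hg hf)).congr (fun x => by omega)

/-- A unary number as an integer. -/
lemma PT.intOfNat {f : α → ℕ} (hf : PT f) : PT (fun x => (f x : ℤ)) :=
  (PT.bnToInt (PT.bnOfNat hf)).congr (fun _ => rfl)

/-- Sums over ranges. -/
lemma PT.intSum {n : α → ℕ} {F : α → ℕ → ℤ} (hn : PT n)
    (hF : PT (fun p : α × ℕ => F p.1 p.2)) :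
    PT (fun x => ∑ i ∈ Finset.range (n x), F x i) := by
  have h1 : PT (fun p : α × ℕ => (⟨(F p.1 p.2).toNat⟩ : BN)) := PT.posPart hF
  have h2 : PT (fun p : α × ℕ => (⟨(-F p.1 p.2).toNat⟩ : BN)) := PT.negPart hF
  refine (PT.diff (PT.bnSum (f := fun x i => (⟨(F x i).toNat⟩ : BN)) hn h1)
    (PT.bnSum (f := fun x i => (⟨(-F x i).toNat⟩ : BN)) hn h2)).congr (fun x => ?_)
  simp only [Nat.cast_sum]
  rw [← Finset.sum_sub_distrib]
  refine Finset.sum_congr rfl (fun i _ => ?_)
  omega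

/-! ### Sizes of integers -/

lemma sz_int_le (z : ℤ) : sz z ≤ 4 * Nat.size z.natAbs + 5 := by
  have h : sz z = sz (decide (z < 0)) + sz (⟨z.natAbs⟩ : BN) + 1 := rfl
  have h1 := sz_bool_le (decide (z < 0))
  have h2 := sz_bn_le (⟨z.natAbs⟩ : BN)
  simp only at h2
  omega

lemma natAbs_lt_pow (z : ℤ) : z.natAbs < 2 ^ sz z := by
  have h : sz z = sz (decide (z < 0)) + sz (⟨z.natAbs⟩ : BN) + 1 := rfl
  have h2 := val_lt_pow (⟨z.natAbs⟩ : BN)
  simp only at h2
  refine h2.trans_le (Nat.pow_le_pow_right (by norm_num) (by omega))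

lemma sz_int_le_of_lt {z : ℤ} {k : ℕ} (h : z.natAbs < 2 ^ k) : sz z ≤ 4 * k + 5 := by
  have h1 := sz_int_le z
  have h2 := Nat.size_le.mpr h
  omega

/-- Products over ranges. -/
lemma PT.intProd {n : α → ℕ} {F : α → ℕ → ℤ} (hn : PT n)
    (hF : PT (fun p : α × ℕ => F p.1 p.2)) :
    PT (fun x => ∏ i ∈ Finset.range (n x), F x i) := by
  obtain ⟨B, hB, hBb⟩ := PB.pairComp hF.size hn
  refine PT.iterClosed (fun x m => ∏ i ∈ Finset.range m, F x i)
    (fun q => q.2.2 * F q.1 q.2.1) hn ?_ ?_ ?_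
    (fun x => 4 * (n x * B x + 1) + 5) ?_ ?_
  · exact (PT.const (1 : ℤ)).congr (fun x => by simp)
  · exact PT.intMul (PT.snd.comp PT.snd) (hF.comp (PT.fst.pair (PT.fst.comp PT.snd)))
  · intro x i _
    simp only [Finset.prod_range_succ]
  · exact ((PB.const 4).mul ((hn.value.mul hB).add (PB.const 1))).add (PB.const 5)
  · intro x i hi
    apply sz_int_le_of_lt
    have h1 : ∀ m, m ≤ n x → (∏ j ∈ Finset.range m, F x j).natAbs ≤ 2 ^ (m * B x) := by
      intro m hm
      induction m with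
      | zero => simp
      | succ m ih =>
        rw [Finset.prod_range_succ, Int.natAbs_mul]
        have h2 := (natAbs_lt_pow (F x m)).le
        have h3 : 2 ^ sz (F x m) ≤ 2 ^ B x :=
          Nat.pow_le_pow_right (by norm_num) (hBb x m (by omega))
        have h4 := ih (by omega)
        calc _ ≤ 2 ^ (m * B x) * 2 ^ B x := Nat.mul_le_mul h4 (h2.trans h3)
          _ = 2 ^ ((m + 1) * B x) := by rw [← pow_add]; ring_nf
    have h2 := h1 i hi
    have h3 : 2 ^ (i * B x) ≤ 2 ^ (n x * B x) :=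
      Nat.pow_le_pow_right (by norm_num) (Nat.mul_le_mul_right _ hi)
    calc _ ≤ 2 ^ (n x * B x) := h2.trans h3
      _ < 2 ^ (n x * B x + 1) := Nat.pow_lt_pow_right (by norm_num) (by omega)

end Pool.Agent.H99.BinDet
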