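import Mathlib

/-!
# Bird's division-free algorithm for the determinant

`bird m n A k` is the `k`-th iterate of
`X ↦ (i, j) ↦ ∑_{l < n, i < l} (X i l * A l j + m * (X l l * A i j))` started at `A`.  Over a
commutative ring and with `m = -1` the entry `(0, 0)` of the iterate `n - 1` is
`(-1) ^ (n - 1) * det A`.
-/

namespace Pool.Agent.H99.BinDet

/-- One step of Bird's algorithm, over a semiring; `m` stands for `-1`. -/
def birdStep {S : Type*} [CommSemiring S] (m : S) (n : ℕ) (A X : ℕ → ℕ → S) : ℕ → ℕ → S :=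
  fun i j => ∑ l ∈ Finset.range n, if i < l then X i l * A l j + m * (X l l * A i j) else 0

/-- The iterates of Bird's algorithm. -/
def bird {S : Type*} [CommSemiring S] (m : S) (n : ℕ) (A : ℕ → ℕ → S) : ℕ → ℕ → ℕ → S
  | 0 => A
  | k + 1 => birdStep m n A (bird m n A k)

lemma bird_map {S T : Type*} [CommSemiring S] [CommSemiring T] (φ : S →+* T) (m : S) (n : ℕ)
    (A : ℕ → ℕ → S) (k i j : ℕ) :
    φ (bird m n A k i j) = bird (φ m) n (fun i j => φ (A i j)) k i j := by
  induction k generalizing i j with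
  | zero => rfl
  | succ k ih =>
    show φ (∑ l ∈ Finset.range n, if i < l then bird m n A k i l * A l j
        + m * (bird m n A k l l * A i j) else 0) = ∑ l ∈ Finset.range n, if i < l then
          bird (φ m) n (fun i j => φ (A i j)) k i l * φ (A l j)
        + φ m * (bird (φ m) n (fun i j => φ (A i j)) k l l * φ (A i j)) else 0
    rw [map_sum]
    refine Finset.sum_congr rfl (fun l _ => ?_)
    split_ifs
    · rw [map_add, map_mul, map_mul, map_mul, ih, ih]
    · exact map_zero φ

section correctness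

open Matrix PowerSeries

variable {R : Type*} [CommRing R] [Nontrivial R] {n : ℕ} (A : Matrix (Fin n) (Fin n) R)

/-- The matrix `A` with its rows of index `< s` replaced by zero, over the power series ring. -/
noncomputable def tailMat (s : ℕ) : Matrix (Fin n) (Fin n) R⟦X⟧ :=
  Matrix.of fun k j => if s ≤ (k : ℕ) then C (A k j) else 0

noncomputable def tailD (s : ℕ) : R⟦X⟧ := det (1 - (X : R⟦X⟧) • tailMat A s)

noncomputable def fullMat : Matrix (Fin n) (Fin n) R⟦X⟧ := A.map C

noncomputable def tailW (s : ℕ) : Matrix (Fin n) (Fin n) R⟦X⟧ := (1 - (X : R⟦X⟧) • tailMat A s)⁻¹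

noncomputable def tailG (s : ℕ) (i j : Fin n) : R⟦X⟧ := tailD A s * (fullMat A * tailW A s) i j

omit [Nontrivial R] in
lemma isUnit_tailD (s : ℕ) : IsUnit (tailD A s) := by
  rw [PowerSeries.isUnit_iff_constantCoeff]
  have : constantCoeff (tailD A s) = 1 := by
    rw [tailD, RingHom.map_det]
    have : (constantCoeff (R := R)).mapMatrix (1 - (X : R⟦X⟧) • tailMat A s) = 1 := by
      ext i j
      simp [Matrix.one_apply, apply_ite (constantCoeff (R := R))]
    rw [this, det_one]
  rw [this]
  exact isUnit_one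

omit [Nontrivial R] in
lemma tailW_mul (s : ℕ) : tailW A s = 1 + (X : R⟦X⟧) • (tailW A s * tailMat A s) := by
  have h : tailW A s * (1 - (X : R⟦X⟧) • tailMat A s) = 1 :=
    Matrix.nonsing_inv_mul _ (isUnit_tailD A s)
  rw [mul_sub, mul_one, Matrix.mul_smul] at h
  rw [← h]
  abel

omit [Nontrivial R] in
lemma tailG_rec (s : ℕ) (i j : Fin n) :
    tailG A s i j = tailD A s * C (A i j)
      + X * ∑ l : Fin n, (if s ≤ (l : ℕ) then tailG A s i l * C (A l j) else 0) := by
  have h : fullMat A * tailW A s = fullMat A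
      + (X : R⟦X⟧) • ((fullMat A * tailW A s) * tailMat A s) := by
    conv_lhs => rw [tailW_mul A s]
    rw [mul_add, mul_one, Matrix.mul_smul, Matrix.mul_assoc]
  have h2 := congrFun (congrFun h i) j
  rw [tailG, h2, Matrix.add_apply, Matrix.smul_apply, Matrix.mul_apply, smul_eq_mul, mul_add]
  congr 1
  rw [← mul_assoc, mul_comm (tailD A s) X, mul_assoc, Finset.mul_sum]
  congr 1
  refine Finset.sum_congr rfl (fun l _ => ?_)
  simp only [tailMat, Matrix.of_apply, tailG]
  split_ifs
  · ring
  · simp

omit [Nontrivial R] in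
lemma tailD_top : tailD A n = 1 := by
  have : tailMat A n = 0 := by
    ext k j
    have := k.2
    simp only [tailMat, Matrix.of_apply, Matrix.zero_apply]
    rw [if_neg (by omega)]
  rw [tailD, this, smul_zero, sub_zero, det_one]

omit [Nontrivial R] in
lemma tailD_step (s : Fin n) :
    tailD A s = tailD A (s + 1) - X * tailG A (s + 1) s s := by
  have h1 : (1 - (X : R⟦X⟧) • tailMat A s) = (1 - (X : R⟦X⟧) • tailMat A ((s : ℕ) + 1))
      + replicateCol (Fin 1) (fun k => if k = s then -(X : R⟦X⟧) else 0)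
        * replicateRow (Fin 1) (fun j => C (A s j)) := by
    ext1 k j
    rw [Matrix.add_apply, Matrix.mul_apply]
    simp only [Matrix.sub_apply, Matrix.smul_apply, tailMat, Matrix.of_apply, smul_eq_mul,
      replicateCol_apply, replicateRow_apply, Finset.univ_unique, Finset.sum_const,
      Finset.card_singleton, one_smul]
    by_cases hk : k = s
    · subst hk
      rw [if_pos le_rfl, if_neg (by omega), if_pos rfl]
      ring
    · have hk' : (k : ℕ) ≠ s := fun h => hk (Fin.ext h)
      rw [if_neg hk]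
      by_cases h : (s : ℕ) ≤ k
      · rw [if_pos h, if_pos (by omega)]; ring
      · rw [if_neg h, if_neg (by omega)]; ring
  have h0 := det_add_mul (n := Fin 1) (A := 1 - (X : R⟦X⟧) • tailMat A ((s : ℕ) + 1))
    (replicateCol (Fin 1) (fun k => if k = s then -(X : R⟦X⟧) else 0))
    (replicateRow (Fin 1) (fun j => C (A s j))) (isUnit_tailD A ((s : ℕ) + 1))
  rw [tailD, h1]
  refine h0.trans ?_
  rw [det_fin_one, Matrix.add_apply, Matrix.one_apply_eq, Matrix.mul_apply]
  have h2 : ∀ k : Fin n, (replicateRow (Fin 1) (fun j => C (A s j))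
      * (1 - (X : R⟦X⟧) • tailMat A ((s : ℕ) + 1))⁻¹) 0 k
        = (fullMat A * tailW A ((s : ℕ) + 1)) s k := by
    intro k
    rw [Matrix.mul_apply, Matrix.mul_apply]
    rfl
  simp only [h2, replicateCol_apply, mul_ite, mul_zero, Finset.sum_ite_eq', Finset.mem_univ,
    if_true]
  rw [tailG]
  show tailD A ((s : ℕ) + 1) * _ = _
  ring

omit [Nontrivial R] in
lemma tailD_eq (s : ℕ) (hs : s ≤ n) :
    tailD A s = 1 - X * ∑ l : Fin n, (if s ≤ (l : ℕ) then tailG A (l + 1) l l else 0) := by
  induction hd : n - s generalizing s with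
  | zero =>
    have : s = n := by omega
    subst this
    rw [tailD_top]
    have : ∑ l : Fin s, (if s ≤ (l : ℕ) then tailG A (l + 1) l l else 0) = 0 :=
      Finset.sum_eq_zero (fun l _ => by rw [if_neg (by have := l.2; omega)])
    rw [this, mul_zero, sub_zero]
  | succ d ih =>
    have hlt : s < n := by omega
    have h1 := tailD_step A ⟨s, hlt⟩
    simp only at h1
    rw [h1, ih (s + 1) (by omega) (by omega)]
    have h2 : ∑ l : Fin n, (if s ≤ (l : ℕ) then tailG A (l + 1) l l else 0)
        = tailG A (s + 1) ⟨s, hlt⟩ ⟨s, hlt⟩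
          + ∑ l : Fin n, (if s + 1 ≤ (l : ℕ) then tailG A (l + 1) l l else 0) := by
      have h3 : tailG A (s + 1) ⟨s, hlt⟩ ⟨s, hlt⟩
          = ∑ l : Fin n, (if l = ⟨s, hlt⟩ then tailG A (l + 1) l l else 0) := by
        rw [Finset.sum_ite_eq' Finset.univ (⟨s, hlt⟩ : Fin n)]
        simp
      rw [h3, ← Finset.sum_add_distrib]
      refine Finset.sum_congr rfl (fun l _ => ?_)
      by_cases hl : l = ⟨s, hlt⟩
      · subst hl
        rw [if_pos le_rfl, if_pos rfl, if_neg (by simp), add_zero]
      · have hl' : (l : ℕ) ≠ s := fun h => hl (Fin.ext h)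
        rw [if_neg hl, zero_add]
        by_cases h : s ≤ (l : ℕ)
        · rw [if_pos h, if_pos (by omega)]
        · rw [if_neg h, if_neg (by omega)]
    rw [h2]
    ring

omit [Nontrivial R] in
/-- The recursion of Bird's algorithm on the level of generating functions. -/
lemma tailG_bird (i j : Fin n) :
    tailG A (i + 1) i j = C (A i j) + X * ∑ l : Fin n, (if i < l then
      tailG A (i + 1) i l * C (A l j) - tailG A (l + 1) l l * C (A i j) else 0) := by
  rw [tailG_rec, tailD_eq A (i + 1) (by have := i.2; omega)]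
  have h : ∑ l : Fin n, (if i < l then
      tailG A (i + 1) i l * C (A l j) - tailG A (l + 1) l l * C (A i j) else 0)
      = ∑ l : Fin n, (if (i : ℕ) + 1 ≤ (l : ℕ) then tailG A (i + 1) i l * C (A l j) else 0)
        - (∑ l : Fin n, (if (i : ℕ) + 1 ≤ (l : ℕ) then tailG A (l + 1) l l else 0))
          * C (A i j) := by
    rw [Finset.sum_mul, ← Finset.sum_sub_distrib]
    refine Finset.sum_congr rfl (fun l _ => ?_)
    by_cases hl : i < l
    · have : (i : ℕ) + 1 ≤ l := hl
      rw [if_pos hl, if_pos this, if_pos this]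
    · have : ¬ ((i : ℕ) + 1 ≤ l) := hl
      rw [if_neg hl, if_neg this, if_neg this]
      simp
  rw [h]
  ring

omit [Nontrivial R] in
lemma coeff_tailG_zero (i j : Fin n) : coeff 0 (tailG A (i + 1) i j) = A i j := by
  rw [tailG_bird, map_add, coeff_zero_C, coeff_zero_X_mul, add_zero]

omit [Nontrivial R] in
lemma coeff_tailG_succ (k : ℕ) (i j : Fin n) : coeff (k + 1) (tailG A (i + 1) i j)
    = ∑ l : Fin n, (if i < l then coeff k (tailG A (i + 1) i l) * A l j
        - coeff k (tailG A (l + 1) l l) * A i j else 0) := by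
  rw [tailG_bird, map_add, coeff_succ_X_mul, map_sum, coeff_C, if_neg (by omega), zero_add]
  refine Finset.sum_congr rfl (fun l _ => ?_)
  split_ifs
  · rw [map_sub, coeff_mul_C, coeff_mul_C]
  · rw [map_zero]

/-- The coefficient of `X ^ n` in `det (1 - X M)`. -/
lemma coeff_det_one_sub (M : Matrix (Fin n) (Fin n) R) :
    coeff n (det (1 - (X : R⟦X⟧) • M.map C)) = (-1) ^ n * det M := by
  have h1 : det (1 - (X : R⟦X⟧) • M.map C)
      = Polynomial.coeToPowerSeries.ringHom (M.charpolyRev) := by
    rw [Matrix.charpolyRev, RingHom.map_det]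
    congr 1
    ext1 i j
    by_cases hij : i = j
    · subst hij
      simp
      ring
    · simp [Matrix.one_apply_ne hij]
      ring
  have h2 : coeff n (Polynomial.coeToPowerSeries.ringHom (M.charpolyRev))
      = (M.charpolyRev).coeff n := by
    simp
  rw [h1, h2, ← Matrix.reverse_charpoly, Polynomial.coeff_reverse,
    Matrix.charpoly_natDegree_eq_dim, Fintype.card_fin, Polynomial.revAt_le le_rfl, Nat.sub_self,
    Matrix.det_eq_sign_charpoly_coeff, Fintype.card_fin, ← mul_assoc, ← mul_pow]
  simp

/-- Bird's theorem on the level of generating functions. -/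
lemma coeff_tailG_last (hn : 0 < n) :
    coeff (n - 1) (tailG A 1 ⟨0, hn⟩ ⟨0, hn⟩) = (-1) ^ (n - 1) * det A := by
  have h0 := tailD_step A ⟨0, hn⟩
  simp only [zero_add] at h0
  have h1 : tailMat A 0 = A.map C := by
    ext1 k j
    simp [tailMat]
  have h2 : tailMat A 1 = (Matrix.of fun k j : Fin n => if 1 ≤ (k : ℕ) then A k j else 0).map C := by
    ext1 k j
    simp only [tailMat, Matrix.of_apply, Matrix.map_apply]
    split_ifs
    · rfl
    · exact (map_zero _).symm
  have h3 : det (Matrix.of fun k j : Fin n => if 1 ≤ (k : ℕ) then A k j else 0) = 0 := by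
    refine Matrix.det_eq_zero_of_row_eq_zero ⟨0, hn⟩ (fun j => ?_)
    simp
  have h4 := congrArg (coeff n) h0
  rw [tailD, tailD, h1, h2, coeff_det_one_sub, map_sub, coeff_det_one_sub, h3, mul_zero,
    zero_sub] at h4
  obtain ⟨m, rfl⟩ : ∃ m, n = m + 1 := ⟨n - 1, by omega⟩
  rw [coeff_succ_X_mul] at h4
  rw [Nat.add_sub_cancel]
  have h5 : coeff m (tailG A 1 ⟨0, hn⟩ ⟨0, hn⟩) = -((-1) ^ (m + 1) * det A) := by
    rw [h4, neg_neg]
  rw [h5, pow_succ]
  ring

end correctness

/-- **Bird's theorem**: the division-free algorithm computes the determinant. -/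
theorem bird_det {R : Type*} [CommRing R] [Nontrivial R] (n : ℕ) (hn : 0 < n) (A : ℕ → ℕ → R) :
    bird (-1) n A (n - 1) 0 0
      = (-1) ^ (n - 1) * Matrix.det (Matrix.of fun i j : Fin n => A i j) := by
  rw [← coeff_tailG_last _ hn]
  have key : ∀ (k : ℕ) (i j : Fin n), bird (-1) n A k i j
      = PowerSeries.coeff k (tailG (Matrix.of fun i j : Fin n => A i j) (i + 1) i j) := by
    intro k
    induction k with
    | zero =>
      intro i j
      rw [coeff_tailG_zero]
      rfl
    | succ k ih =>
      intro i j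
      rw [coeff_tailG_succ]
      show (∑ l ∈ Finset.range n, if (i : ℕ) < l then bird (-1) n A k i l * A l j
        + -1 * (bird (-1) n A k l l * A i j) else 0) = _
      rw [Finset.sum_range]
      refine Finset.sum_congr rfl (fun l _ => ?_)
      rw [← ih i l, ← ih l l]
      by_cases h : (i : ℕ) < l
      · rw [if_pos h, if_pos (Fin.lt_def.mpr h)]
        simp only [Matrix.of_apply]
        ring
      · rw [if_neg h, if_neg (fun h' => h (Fin.lt_def.mp h'))]
  exact key (n - 1) ⟨0, hn⟩ ⟨0, hn⟩

end Pool.Agent.H99.BinDet
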