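import Mathlib
import Pool.Agent.H99.BinDet.Bird
import Pool.Agent.H99.BinDet.BZ

/-!
# The determinant in polynomial time
-/

namespace Pool.Agent.H99.BinDet

open Pool.Agent.H7.Comp

variable {α β γ : Type} [Enc α] [Enc β] [Enc γ]

/-- A polynomial bound uniform in two indices. -/
lemma PB.pairComp2 {M : α × ℕ × ℕ → ℕ} {n : α → ℕ} (hM : PB M) (hn : PT n) :
    ∃ B : α → ℕ, PB B ∧ ∀ x i j, i ≤ n x → j ≤ n x → M (x, i, j) ≤ B x := by
  obtain ⟨c, hc⟩ := hM
  refine ⟨fun x => (sz x + (2 * n x + 1) + (2 * n x + 1) + 2 + 2) ^ c, ?_, ?_⟩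
  · have h1 : PB (fun x : α => sz x + (2 * n x + 1) + (2 * n x + 1) + 2) :=
      (((PB.self).add (((PB.const 2).mul hn.value).add (PB.const 1))).add
        (((PB.const 2).mul hn.value).add (PB.const 1))).add (PB.const 2)
    obtain ⟨d, hd⟩ := h1
    refine ⟨(d + 1) * c, fun x => ?_⟩
    have h3 := base_ge x
    have h4 : 1 ≤ (sz x + 2) ^ d := Nat.one_le_pow _ _ (by omega)
    have h5 : sz x + (2 * n x + 1) + (2 * n x + 1) + 2 + 2 ≤ (sz x + 2) ^ (d + 1) := by
      rw [pow_succ]
      have := hd x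
      simp only at this
      nlinarith
    rw [pow_mul]
    exact Nat.pow_le_pow_left h5 c
  · intro x i j hi hj
    refine (hc (x, i, j)).trans ?_
    apply Nat.pow_le_pow_left
    rw [sz_pair, sz_pair, sz_nat, sz_nat]
    omega

/-- Bound for the numbers in Bird's algorithm. -/
lemma bird_bound (n : ℕ) (A : ℕ → ℕ → ℤ) (D : ℤ) (hD : 0 ≤ D)
    (hA : ∀ i j, i < n → j < n → |A i j| ≤ D) (m : ℕ) :
    ∀ i j, i < n → j < n → |bird (-1) n A m i j| ≤ (2 * n * D) ^ m * D := by
  induction m with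
  | zero =>
    intro i j hi hj
    rw [pow_zero, one_mul]
    exact hA i j hi hj
  | succ m ih =>
    intro i j hi hj
    have hB : 0 ≤ (2 * n * D) ^ m * D := by positivity
    calc |bird (-1) n A (m + 1) i j|
        = |∑ l ∈ Finset.range n, if i < l then bird (-1) n A m i l * A l j
            + -1 * (bird (-1) n A m l l * A i j) else 0| := rfl
      _ ≤ ∑ l ∈ Finset.range n, |if i < l then bird (-1) n A m i l * A l j
            + -1 * (bird (-1) n A m l l * A i j) else 0| := Finset.abs_sum_le_sum_abs _ _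
      _ ≤ ∑ l ∈ Finset.range n, 2 * (((2 * n * D) ^ m * D) * D) := by
          refine Finset.sum_le_sum (fun l hl => ?_)
          have hl' : l < n := Finset.mem_range.mp hl
          split_ifs
          · have h1 : |bird (-1) n A m i l * A l j| ≤ ((2 * n * D) ^ m * D) * D := by
              rw [abs_mul]
              exact mul_le_mul (ih i l hi hl') (hA l j hl' hj) (abs_nonneg _) hB
            have h2 : |bird (-1) n A m l l * A i j| ≤ ((2 * n * D) ^ m * D) * D := by
              rw [abs_mul]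
              exact mul_le_mul (ih l l hl' hl') (hA i j hi hj) (abs_nonneg _) hB
            calc _ ≤ |bird (-1) n A m i l * A l j| + |-1 * (bird (-1) n A m l l * A i j)| :=
                  abs_add_le _ _
              _ = |bird (-1) n A m i l * A l j| + |bird (-1) n A m l l * A i j| := by
                  rw [neg_one_mul, abs_neg]
              _ ≤ _ := by linarith
          · rw [abs_zero]
            positivity
      _ = (2 * n * D) ^ (m + 1) * D := by
          rw [Finset.sum_const, Finset.card_range, nsmul_eq_mul, pow_succ]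
          ring

/-- Entry of a list of lists. -/
def ent (S : List (List ℤ)) (i j : ℕ) : ℤ := (S.getD i []).getD j 0

lemma PT.ent {S : α → List (List ℤ)} {i j : α → ℕ} (hS : PT S) (hi : PT i) (hj : PT j) :
    PT (fun x => ent (S x) (i x) (j x)) :=
  PT.getD (PT.getD hS hi (PT.const [])) hj (PT.const 0)

/-- Tabulation of a matrix. -/
def tab (k : ℕ) (A : ℕ → ℕ → ℤ) : List (List ℤ) :=
  (List.range k).map (fun i => (List.range k).map (fun j => A i j))

lemma ent_tab (k : ℕ) (A : ℕ → ℕ → ℤ) (i j : ℕ) (hi : i < k) (hj : j < k) :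
    ent (tab k A) i j = A i j := by
  simp [ent, tab, List.getD_eq_getElem?_getD, hi, hj]

lemma tab_congr {k : ℕ} {A A' : ℕ → ℕ → ℤ} (h : ∀ i j, i < k → j < k → A i j = A' i j) :
    tab k A = tab k A' := by
  refine List.map_congr_left (fun i hi => List.map_congr_left (fun j hj => ?_))
  exact h i j (List.mem_range.mp hi) (List.mem_range.mp hj)

lemma PT.tab {k : α → ℕ} {A : α → ℕ → ℕ → ℤ} (hk : PT k)
    (hA : PT (fun p : (α × ℕ) × ℕ => A p.1.1 p.1.2 p.2)) : PT (fun x => tab (k x) (A x)) :=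
  PT.mapRange hk (PT.mapRange (f := fun (p : α × ℕ) j => A p.1 p.2 j) (hk.comp PT.fst) hA)

/-- The determinant of an integer matrix is computable in polynomial time. -/
theorem PT.birdInt {k : α → ℕ} {A : α → ℕ → ℕ → ℤ} (hk : PT k)
    (hA : PT (fun p : α × ℕ × ℕ => A p.1 p.2.1 p.2.2)) :
    PT (fun x => Pool.Agent.H99.BinDet.tab (k x) (bird (-1) (k x) (A x) (k x - 1))) := by
  obtain ⟨B, hB, hBb⟩ := PB.pairComp2 hA.size hk
  have hkp : PT (fun x => k x - 1) := hk.sub (PT.const 1)
  refine PT.iterClosed (fun x m => BinDet.tab (k x) (bird (-1) (k x) (A x) m))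
    (fun q => BinDet.tab (k q.1) (birdStep (-1) (k q.1) (A q.1) (BinDet.ent q.2.2)))
    hkp ?_ ?_ ?_
    (fun x => k x * ((k x * ((4 * ((k x - 1) * (k x + 1 + B x) + B x + 1) + 5) + 1) + 1) + 1) + 1)
    ?_ ?_
  · exact PT.tab (A := fun x i j => bird (-1) (k x) (A x) 0 i j) hk
      (hA.comp ((PT.fst.comp PT.fst).pair ((PT.snd.comp PT.fst).pair PT.snd)))
  · refine PT.tab (A := fun (q : α × ℕ × List (List ℤ)) i j =>
      birdStep (-1) (k q.1) (A q.1) (BinDet.ent q.2.2) i j) (hk.comp PT.fst) ?_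
    show PT (fun p : ((α × ℕ × List (List ℤ)) × ℕ) × ℕ =>
      ∑ l ∈ Finset.range (k p.1.1.1), if p.1.2 < l then
        BinDet.ent p.1.1.2.2 p.1.2 l * A p.1.1.1 l p.2
          + -1 * (BinDet.ent p.1.1.2.2 l l * A p.1.1.1 p.1.2 p.2) else 0)
    refine PT.intSum (F := fun (p : ((α × ℕ × List (List ℤ)) × ℕ) × ℕ) l => if p.1.2 < l then
        BinDet.ent p.1.1.2.2 p.1.2 l * A p.1.1.1 l p.2
          + -1 * (BinDet.ent p.1.1.2.2 l l * A p.1.1.1 p.1.2 p.2) else 0)
      (hk.comp (PT.fst.comp (PT.fst.comp PT.fst))) ?_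
    have hi : PT (fun s : (((α × ℕ × List (List ℤ)) × ℕ) × ℕ) × ℕ => s.1.1.2) :=
      PT.snd.comp (PT.fst.comp PT.fst)
    have hj : PT (fun s : (((α × ℕ × List (List ℤ)) × ℕ) × ℕ) × ℕ => s.1.2) :=
      PT.snd.comp PT.fst
    have hl : PT (fun s : (((α × ℕ × List (List ℤ)) × ℕ) × ℕ) × ℕ => s.2) := PT.snd
    have hx : PT (fun s : (((α × ℕ × List (List ℤ)) × ℕ) × ℕ) × ℕ => s.1.1.1.1) :=
      PT.fst.comp (PT.fst.comp (PT.fst.comp PT.fst))
    have hS : PT (fun s : (((α × ℕ × List (List ℤ)) × ℕ) × ℕ) × ℕ => s.1.1.1.2.2) :=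
      PT.snd.comp (PT.snd.comp (PT.fst.comp (PT.fst.comp PT.fst)))
    have hA1 : PT (fun s : (((α × ℕ × List (List ℤ)) × ℕ) × ℕ) × ℕ =>
        A s.1.1.1.1 s.2 s.1.2) := hA.comp (hx.pair (hl.pair hj))
    have hA2 : PT (fun s : (((α × ℕ × List (List ℤ)) × ℕ) × ℕ) × ℕ =>
        A s.1.1.1.1 s.1.1.2 s.1.2) := hA.comp (hx.pair (hi.pair hj))
    exact PT.ite (PTp.lt hi hl) (PT.intAdd (PT.intMul (PT.ent hS hi hl) hA1)
      (PT.intMul (PT.const (-1 : ℤ)) (PT.intMul (PT.ent hS hl hl) hA2))) (PT.const (0 : ℤ))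
  · intro x m _
    refine tab_congr (fun i j hi hj => ?_)
    show (∑ l ∈ Finset.range (k x), if i < l then bird (-1) (k x) (A x) m i l * A x l j
      + -1 * (bird (-1) (k x) (A x) m l l * A x i j) else 0)
      = ∑ l ∈ Finset.range (k x), if i < l then
        BinDet.ent (BinDet.tab (k x) (bird (-1) (k x) (A x) m)) i l * A x l j
      + -1 * (BinDet.ent (BinDet.tab (k x) (bird (-1) (k x) (A x) m)) l l * A x i j) else 0
    refine Finset.sum_congr rfl (fun l hl => ?_)
    rw [ent_tab _ _ i l hi (Finset.mem_range.mp hl),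
      ent_tab _ _ l l (Finset.mem_range.mp hl) (Finset.mem_range.mp hl)]
  · have hk' : PB k := hk.value
    have hkp' : PB (fun x => k x - 1) := hkp.value
    exact (hk'.mul (((hk'.mul (((PB.const 4).mul (((hkp'.mul ((hk'.add (PB.const 1)).add hB)).add
      hB).add (PB.const 1))).add (PB.const 5) |>.add (PB.const 1))).add
        (PB.const 1)).add (PB.const 1))).add (PB.const 1)
  · intro x m hm
    have hent : ∀ i j, i < k x → j < k x → sz (bird (-1) (k x) (A x) m i j)
        ≤ 4 * ((k x - 1) * (k x + 1 + B x) + B x + 1) + 5 := by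
      intro i j hi hj
      apply sz_int_le_of_lt
      have h1 := bird_bound (k x) (A x) (2 ^ B x) (by positivity) (fun i j hi hj => by
        have h2 := natAbs_lt_pow (A x i j)
        have h3 : sz (A x i j) ≤ B x := hBb x i j hi.le hj.le
        have h4 : (A x i j).natAbs ≤ 2 ^ B x :=
          h2.le.trans (Nat.pow_le_pow_right (by norm_num) h3)
        calc |A x i j| = (((A x i j).natAbs : ℕ) : ℤ) := Int.abs_eq_natAbs _
          _ ≤ ((2 ^ B x : ℕ) : ℤ) := by exact_mod_cast h4
          _ = 2 ^ B x := by push_cast; rfl) m i j hi hj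
      have h2 : (bird (-1) (k x) (A x) m i j).natAbs ≤ (2 * k x * 2 ^ B x) ^ m * 2 ^ B x := by
        rw [Int.abs_eq_natAbs] at h1
        exact_mod_cast h1
      have h3 : 2 * k x * 2 ^ B x ≤ 2 ^ (k x + 1 + B x) := by
        have : k x ≤ 2 ^ k x := Nat.lt_two_pow_self.le
        calc 2 * k x * 2 ^ B x ≤ 2 * 2 ^ k x * 2 ^ B x := by gcongr
          _ = 2 ^ (k x + 1 + B x) := by rw [pow_add, pow_succ]; ring
      calc (bird (-1) (k x) (A x) m i j).natAbs ≤ (2 * k x * 2 ^ B x) ^ m * 2 ^ B x := h2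
        _ ≤ (2 ^ (k x + 1 + B x)) ^ m * 2 ^ B x := by gcongr
        _ = 2 ^ (m * (k x + 1 + B x) + B x) := by rw [← pow_mul, ← pow_add]; ring_nf
        _ ≤ 2 ^ ((k x - 1) * (k x + 1 + B x) + B x) :=
            Nat.pow_le_pow_right (by norm_num) (Nat.add_le_add_right (Nat.mul_le_mul_right _ hm) _)
        _ < 2 ^ ((k x - 1) * (k x + 1 + B x) + B x + 1) :=
            Nat.pow_lt_pow_right (by norm_num) (by omega)
    refine (sz_map_le _ _ (k x * ((4 * ((k x - 1) * (k x + 1 + B x) + B x + 1) + 5) + 1) + 1)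
      ?_).trans ?_
    · intro i hi
      refine (sz_map_le _ _ (4 * ((k x - 1) * (k x + 1 + B x) + B x + 1) + 5) ?_).trans ?_
      · intro j hj
        exact hent i j (List.mem_range.mp hi) (List.mem_range.mp hj)
      · rw [List.length_range]
    · rw [List.length_range]

/-- The determinant of an integer matrix is computable in polynomial time. -/
theorem PT.det {k : α → ℕ} {A : α → ℕ → ℕ → ℤ} (hk : PT k)
    (hA : PT (fun p : α × ℕ × ℕ => A p.1 p.2.1 p.2.2)) :
    PT (fun x => (Matrix.of fun i j : Fin (k x) => A x i j).det) := by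
  have h := PT.birdInt hk hA
  have h2 : PT (fun x => BinDet.ent
      (BinDet.tab (k x) (bird (-1) (k x) (A x) (k x - 1))) 0 0) :=
    PT.ent h (PT.const 0) (PT.const 0)
  have h3 : PT (fun x => if k x = 0 then (1 : ℤ) else if (k x - 1) % 2 = 0 then
      BinDet.ent (BinDet.tab (k x) (bird (-1) (k x) (A x) (k x - 1))) 0 0
      else - BinDet.ent (BinDet.tab (k x) (bird (-1) (k x) (A x) (k x - 1))) 0 0) :=
    PT.ite (PTp.eq hk (PT.const 0)) (PT.const (1 : ℤ))
      (PT.ite (PTp.eq (PT.mod (hk.sub (PT.const 1)) (PT.const 2)) (PT.const 0)) h2 (PT.intNeg h2))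
  refine h3.congr (fun x => ?_)
  split_ifs with h0 h1
  · symm
    have : IsEmpty (Fin (k x)) := by rw [h0]; infer_instance
    exact Matrix.det_isEmpty
  · have hpos : 0 < k x := by omega
    rw [ent_tab _ _ 0 0 hpos hpos, bird_det (k x) hpos]
    have : Even (k x - 1) := Nat.even_iff.mpr h1
    rw [this.neg_one_pow, one_mul]
  · have hpos : 0 < k x := by omega
    rw [ent_tab _ _ 0 0 hpos hpos, bird_det (k x) hpos]
    have : Odd (k x - 1) := Nat.odd_iff.mpr (by omega)
    rw [this.neg_one_pow, neg_one_mul, neg_neg]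

end Pool.Agent.H99.BinDet
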